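import Pool.Agent.Helper63.XR.StA

/-!
# Project XR: trace, rank and Hilbert-Schmidt norm (TRH)
-/

set_option autoImplicit false

namespace Pool.Agent.Helper48.XR

open Pool.Agent.Helper63.XR Finset

theorem trh_aux {n : Type} [Fintype n] [DecidableEq n] (M : Matrix n n ℂ) {r : ℕ}
    (b : Fin r → EuclideanSpace ℂ n) (hb : Orthonormal ℂ b) :
    ∑ k, ‖Matrix.toEuclideanLin M (b k)‖ ^ 2 ≤ ∑ i, ∑ j, ‖M i j‖ ^ 2 := by
  have h1 : ∀ k, ‖Matrix.toEuclideanLin M (b k)‖ ^ 2
      = ∑ i, ‖inner ℂ (b k) (WithLp.toLp 2 (fun j => star (M i j)) : EuclideanSpace ℂ n)‖ ^ 2 := by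
    intro k
    rw [EuclideanSpace.norm_sq_eq]
    apply Finset.sum_congr rfl
    intro i _
    congr 1
    rw [← norm_star]
    congr 1
    rw [Matrix.ofLp_toEuclideanLin_apply, EuclideanSpace.inner_eq_star_dotProduct]
    simp [Matrix.mulVec, dotProduct]
  simp_rw [h1]
  rw [Finset.sum_comm]
  apply Finset.sum_le_sum
  intro i _
  have h2 := hb.sum_inner_products_le (s := Finset.univ)
    (x := (WithLp.toLp 2 (fun j => star (M i j)) : EuclideanSpace ℂ n))
  refine h2.trans (le_of_eq ?_)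
  rw [EuclideanSpace.norm_sq_eq]
  simp

theorem hTRH : StTrh := by
  intro n _ _ M
  let T : EuclideanSpace ℂ n →ₗ[ℂ] EuclideanSpace ℂ n := Matrix.toEuclideanLin M
  let K := LinearMap.range T
  have hTK : ∀ x, T x ∈ K := fun x => LinearMap.mem_range_self T x
  have htr : M.trace = LinearMap.trace ℂ _ T := by
    rw [LinearMap.trace_eq_sum_inner T (EuclideanSpace.basisFun n ℂ)]
    unfold Matrix.trace
    apply Finset.sum_congr rfl
    intro i _
    rw [EuclideanSpace.basisFun_apply, EuclideanSpace.inner_single_left]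
    simp [T]
  have hrk : Module.finrank ℂ K = M.rank := by
    rw [Matrix.rank_eq_finrank_range_toLin M (EuclideanSpace.basisFun n ℂ).toBasis
      (EuclideanSpace.basisFun n ℂ).toBasis, ← Matrix.toEuclideanLin_eq_toLin_orthonormal]
  let b := stdOrthonormalBasis ℂ K
  have h1 : LinearMap.trace ℂ _ T = ∑ k, inner ℂ ((b k : EuclideanSpace ℂ n)) (T (b k)) := by
    rw [← LinearMap.trace_restrict_eq_of_forall_mem K T hTK, LinearMap.trace_eq_sum_inner _ b]
    rfl
  have hb : Orthonormal ℂ (fun k => (b k : EuclideanSpace ℂ n)) :=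
    b.orthonormal.comp_linearIsometry K.subtypeₗᵢ
  rw [htr, h1]
  have h2 : ‖∑ k, inner ℂ ((b k : EuclideanSpace ℂ n)) (T (b k))‖ ^ 2
      ≤ (∑ k : Fin (Module.finrank ℂ K), ‖T (b k)‖) ^ 2 := by
    apply pow_le_pow_left₀ (norm_nonneg _)
    refine (norm_sum_le _ _).trans ?_
    apply Finset.sum_le_sum
    intro k _
    refine (norm_inner_le_norm _ _).trans ?_
    rw [hb.norm_eq_one, one_mul]
  refine h2.trans ?_
  refine (sq_sum_le_card_mul_sum_sq).trans ?_
  rw [Finset.card_univ, Fintype.card_fin, ← hrk]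
  exact mul_le_mul_of_nonneg_left (trh_aux M _ hb) (by positivity)

end Pool.Agent.Helper48.XR
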